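import Pool.Agent.X264.BK.Main

/-!
# Beilinson's conjecture for `K₄` of genus one curves: one elliptic curve per isogeny class
-/

set_option autoImplicit false

open Pool.Agent.X264.BK

namespace Pool.Agent.Results.MP_4132b3_nt.IsogenyClasses

universe u

/-- **One curve per isogeny class, one element.** Q1 holds for all genus one curves over `ℚ` if and only
if for one elliptic curve `E` in each isogeny class over `ℚ` the space `H²_M(E, ℚ(3))` is zero or spanned
by one element `α` with `Π(α) ∈ ℚ^× L'(E, -1)`. -/
theorem result (T : Theory.{u}) (hL : T.HasNonzero) (hT : T.HasTransport) (R : T.Ob → Prop)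
    (hR : T.IsFull R) : (∀ C, T.Holds C) ↔ ∀ C, R C → T.HasOneElement C :=
  Theory.main hL hT R hR

end Pool.Agent.Results.MP_4132b3_nt.IsogenyClasses
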