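import Pool.Agent.X242.DR13

/-!
# The numbers `L'(E, -1)` and universal rational weights

Let `E` be an elliptic curve over `ℚ`, `c(n)` the coefficients of its `L`-function (which is the `L`-function of the newform
`f` of `E`, by modularity), so that `L(E, s) = ∑ c(n) n^{-s}`, continued to an entire function.

**Rational weights.** Fix `γ > π/2`, `C_1(γ) = -(γ_E + iγ)` with Euler's constant `γ_E`, and rational numbers `ρ_N(n)`, for
every `N` almost all of them zero, with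
`|ρ_N(n) - Re (N e^{iγ log n / N} / (C_1(γ) Γ(1 + log n / N)))| ≤ 1 / (N n²)`. They do not depend on `E`. Put
`x_N(E) = ∑_n ρ_N(n³) n c(n)`, a rational number, a finite rational linear combination of the numbers `c(n)`.

1. `L(E, -1) = 0`, and `x_N(E) = 3 L'(E, -1) + O(1/N)`, unconditionally for the `L`-functions of all newforms of
   weight 2 with integral coefficients.
2. A real number `P ≠ 0` is a nonzero rational multiple of `L'(E, -1)` if and only if for some natural number `M ≥ 1` the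
   numbers `M x_N(E) / P` come arbitrarily close to nonzero integers for arbitrarily large `N`.
3. So if `C` is a curve of genus one with Jacobian `E`, `V` the space `H²_M(C, ℚ(3))` and `Π : V → ℝ` the map of the
   problem: Q1 for `C` holds if and only if for every `α ≠ 0` one has `Π(α) ≠ 0` and for some `M ≥ 1` the numbers
   `M x_N(E) / Π(α)` come arbitrarily close to nonzero integers for arbitrarily large `N`.

The statement to be tested for given `M` (and given precision) contains no `L`-function: only the coefficients `c(n)`, which are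
numbers of points, with weights which are the same for all curves. The proof uses the rotated law at `s = 0`
(`Pool.Agent.X242.DR`) and the continuation of the `L`-functions of newforms (`Pool.Agent.W355.LJ`).
-/

set_option autoImplicit false

namespace Pool.Agent.Results.MP_4132b3_nt.RationalApproximations

open Filter Topology UpperHalfPlane MatrixGroups ModularForm CongruenceSubgroup Asymptotics
open Pool.Agent.X242.DR
open scoped ComplexConjugate

/-- The number of affine points of `y² = x³ + a x + b` modulo `p`. -/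
noncomputable def points (a b : ℤ) (p : ℕ) : ℕ :=
  Nat.card {q : ZMod p × ZMod p // q.2 ^ 2 = q.1 ^ 3 + (a : ZMod p) * q.1 + (b : ZMod p)}

/-- `f` is an eigenfunction of the Fricke involution. -/
def IsFricke (N : ℕ) [NeZero N] (f : CuspForm (Gamma1 N : Subgroup (GL (Fin 2) ℝ)) ((2 : ℕ) : ℤ)) : Prop :=
  ∃ w : ℂ, ‖w‖ = 1 ∧ ∀ τ τ' τ'' : ℍ, (τ' : ℂ) * ((N : ℂ) * (τ : ℂ)) = -1 →
    (τ'' : ℂ) = -conj (τ : ℂ) → f τ' = w * ((Real.sqrt N : ℝ) * (τ : ℂ)) ^ 2 * conj (f τ'')

/-- The integers `c(n)` are the Fourier coefficients of `f`. -/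
def HasCoeff (N : ℕ) (f : CuspForm (Gamma1 N : Subgroup (GL (Fin 2) ℝ)) ((2 : ℕ) : ℤ)) (c : ℕ → ℤ) : Prop :=
  ∀ n, (qExpansion 1 f).coeff n = (c n : ℂ)

/-- `f ∈ S_2(Γ_1(N))` is the newform of the elliptic curve `E : y² = x³ + a x + b`, with the Fourier coefficients `c(n)`:
`c(1) = 1`, the Hecke relations, `c(p) = p - #{affine points mod p}` for the primes not dividing `2Δ`, and `f` is an
eigenfunction of the Fricke involution. -/
structure IsNewformOf (a b : ℤ) (N : ℕ) [NeZero N]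
    (f : CuspForm (Gamma1 N : Subgroup (GL (Fin 2) ℝ)) ((2 : ℕ) : ℤ)) (c : ℕ → ℤ) : Prop where
  disc : 4 * a ^ 3 + 27 * b ^ 2 ≠ 0
  coeff : HasCoeff N f c
  one : c 1 = 1
  mul : ∀ m n : ℕ, Nat.Coprime m n → c (m * n) = c m * c n
  pow : ∀ p j : ℕ, p.Prime → c (p ^ (j + 2)) = c p * c (p ^ (j + 1)) -
    (if p ∣ N then 0 else (p : ℤ) * c (p ^ j))
  good : ∀ p : ℕ, p.Prime → ¬ ((p : ℤ) ∣ 2 * (4 * a ^ 3 + 27 * b ^ 2)) → c p = p - points a b p
  fricke : IsFricke N f

/-- `L` is the entire continuation of `∑ c(n) n^{-s}`. -/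
structure IsLFunction (c : ℕ → ℤ) (L : ℂ → ℂ) : Prop where
  entire : Differentiable ℂ L
  series : ∀ s : ℂ, 2 < s.re → L s = LSeries (fun n => (c n : ℂ)) s

/-- `x_N = ∑ ρ_N(n³) n c(n)` -/
noncomputable def approx (ρ : ℕ → ℕ →₀ ℚ) (c : ℕ → ℤ) (N : ℕ) : ℚ :=
  comb (ρ N) (powCoef 3 fun n => (n : ℚ) * (c n : ℚ))

/-- For some `M ≥ 1` the numbers `M x_N / P` come arbitrarily close to nonzero integers for arbitrarily large `N`. -/
def NearIntegers (x : ℕ → ℚ) (P : ℝ) : Prop :=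
  ∃ M : ℕ, 1 ≤ M ∧ ∀ ε : ℝ, 0 < ε → ∀ N₀ : ℕ, ∃ N ≥ N₀, ∃ z : ℤ, z ≠ 0 ∧ |M * (x N : ℝ) / P - z| < ε

/-- **Beilinson's conjecture for `K_4` of curves of genus one and rational approximations.** -/
theorem result :
    -- 0. the weights exist
    ((∀ γ : ℝ, Ck 1 γ = -(Real.eulerMascheroniConstant + γ * Complex.I)) ∧
      ∀ γ : ℝ, ∃ ρ, IsRational 1 γ ρ) ∧
    ∀ γ : ℝ, Real.pi / 2 < γ → ∀ ρ : ℕ → ℕ →₀ ℚ, IsRational 1 γ ρ →
    ∀ (a b : ℤ) (N : ℕ) [NeZero N] (f : CuspForm (Gamma1 N : Subgroup (GL (Fin 2) ℝ)) ((2 : ℕ) : ℤ))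
      (c : ℕ → ℤ), IsNewformOf a b N f c →
    (∃ L : ℂ → ℂ, IsLFunction c L) ∧ ∀ L : ℂ → ℂ, IsLFunction c L →
    -- 1. the approximations
    (L (-1) = 0 ∧ (deriv L (-1)).im = 0 ∧
      (fun M : ℕ => (approx ρ c M : ℝ) - 3 * (deriv L (-1)).re) =O[atTop] (fun M : ℕ => 1 / (M : ℝ))) ∧
    -- 2. rational multiples
    (∀ P : ℝ, P ≠ 0 → ((∃ q : ℚ, q ≠ 0 ∧ P = q * (deriv L (-1)).re) ↔ NearIntegers (approx ρ c) P)) ∧
    -- 3. the conjecture
    ∀ (V : Type) [AddCommGroup V] [Module ℚ V] (Pi : V →ₗ[ℚ] ℝ),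
      (∀ α : V, α ≠ 0 → ∃ q : ℚ, q ≠ 0 ∧ Pi α = q * (deriv L (-1)).re) ∧ (deriv L (-1)).re ≠ 0 ↔
      (∀ α : V, α ≠ 0 → Pi α ≠ 0 ∧ NearIntegers (approx ρ c) (Pi α)) ∧ (deriv L (-1)).re ≠ 0 := by
  refine ⟨⟨fun γ => Ck_one γ, fun γ => exists_rational 1 γ⟩, ?_⟩
  intro γ hγ ρ hρ a b N _ f c hf
  obtain ⟨w, hw, hfr⟩ := hf.fricke
  have hNF : Pool.Agent.W355.LJ.IsNF N 2 f w := by
    refine ⟨?_, hw, hfr⟩
    rw [hf.coeff 1, hf.one, Int.cast_one]
  have hcf : (fun n => (qExpansion 1 f).coeff n) = fun n => (c n : ℂ) := funext hf.coeff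
  refine ⟨?_, fun L hL => ?_⟩
  · obtain ⟨L, h1, h2, -⟩ := Pool.Agent.X242.NF.exists_L f (by norm_num) hNF
    rw [hcf] at h2
    refine ⟨L, h1, fun s hs => h2 s ?_⟩
    push_cast
    linarith
  · have hlaw := Pool.Agent.X242.NF.law f (by norm_num) hNF (a := fun n => (c n : ℚ))
      (fun n => by rw [hf.coeff n]; push_cast; rfl) hL.entire (fun s hs => by
        have h1 := hL.series s (by push_cast at hs; linarith)
        rw [h1]
        congr 1) (κ := 3) (by norm_num) hγ hρ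
    obtain ⟨h0, him, hO⟩ := hlaw
    have hO' : (fun M : ℕ => (approx ρ c M : ℝ) - 3 * (deriv L (-1)).re) =O[atTop]
        (fun M : ℕ => 1 / (M : ℝ)) := by
      simpa [approx] using hO
    have hlim : Tendsto (fun M : ℕ => (approx ρ c M : ℝ)) atTop (𝓝 (((3 : ℕ) : ℝ) * (deriv L (-1)).re)) := by
      have h1 := hO'.trans_tendsto tendsto_one_div_atTop_nhds_zero_nat
      have h2 := h1.add_const (3 * (deriv L (-1)).re)
      rw [zero_add] at h2
      push_cast
      exact h2.congr fun N => by ring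
    have h2 : ∀ P : ℝ, P ≠ 0 → ((∃ q : ℚ, q ≠ 0 ∧ P = q * (deriv L (-1)).re) ↔
        NearIntegers (approx ρ c) P) := fun P hP => ratio_iff (by norm_num) hlim hP
    refine ⟨⟨h0, him, hO'⟩, h2, ?_⟩
    intro V _ _ Pi
    constructor
    · rintro ⟨h3, h4⟩
      refine ⟨fun α hα => ?_, h4⟩
      obtain ⟨q, hq, hP⟩ := h3 α hα
      have hne : Pi α ≠ 0 := by
        rw [hP]
        exact mul_ne_zero (by exact_mod_cast hq) h4
      exact ⟨hne, (h2 _ hne).1 ⟨q, hq, hP⟩⟩
    · rintro ⟨h3, h4⟩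
      exact ⟨fun α hα => (h2 _ (h3 α hα).1).2 (h3 α hα).2, h4⟩

end Pool.Agent.Results.MP_4132b3_nt.RationalApproximations
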